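import Pool.Agent.Helper28.T5.StW

/-!
# Project T5, all weights, module UIp: symbols for the extended group invariant under the scaling by `p`

Level `5 p^n`; the first part is the one of `Pool/Agent/Helper57/TKW/M_UIp.lean`.  The group of all `γ` with `χ∘γ ≈ χ` contains `(1 1; 0 1)`, `(1 0; 5 1)`,
`W = (0 -1; 5 0)` and `E = (2 -1; 5 -2)`; twice the constants of `W` and `E` are zero, so `2 χ` is invariant (without constants) under `(1 1; 0 1)`, `W` and
`E`, hence constant by a Euclidean algorithm.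
-/

set_option autoImplicit false

open Pool.Agent.Helper14.CV

namespace Pool.Agent.Helper73.T5W

open Pool.Agent.Helper28.T5 Pool.Agent.Helper28.WK

private theorem inv_inv {R : Type} [AddCommGroup R] {χ : ℤ → ℤ → R} {a b c d : ℤ}
    (hd : a * d - b * c = 1) (h : EqC (act a b c d χ) χ) : EqC (act d (-b) (-c) a χ) χ := by
  have hd' : d * a - -b * -c = 1 := by linarith
  have h1 : EqC (act d (-b) (-c) a (act a b c d χ)) (act d (-b) (-c) a χ) :=
    h.act (by rw [hd']; exact one_ne_zero)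
  have h2 : act d (-b) (-c) a (act a b c d χ) = χ := by
    rw [act_act]
    have e1 : a * d + b * -c = 1 := by linarith
    have e2 : a * -b + b * a = 0 := by ring
    have e3 : c * d + d * -c = 0 := by ring
    have e4 : c * -b + d * a = 1 := by linarith
    rw [e1, e2, e3, e4, act_one]
  rw [h2] at h1
  exact h1.symm

private theorem up {R : Type} [AddCommGroup R] {χ : ℤ → ℤ → R}
    (hT : EqC (act 1 1 0 1 χ) χ) (k : ℤ) : EqC (act 1 k 0 1 χ) χ := by
  have hT' : EqC (act 1 (-1) 0 1 χ) χ := by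
    have := inv_inv (by norm_num) hT
    simpa using this
  induction k using Int.induction_on with
  | zero => rw [act_one]; exact EqC.refl _
  | succ i ih =>
    have e : act 1 ((i : ℤ) + 1) 0 1 χ = act 1 1 0 1 (act 1 (i : ℤ) 0 1 χ) := by
      rw [act_act]
      congr 1 <;> ring
    rw [e]
    exact (ih.act (by norm_num)).trans hT
  | pred i ih =>
    have e : act 1 (-(i : ℤ) - 1) 0 1 χ = act 1 (-1) 0 1 (act 1 (-(i : ℤ)) 0 1 χ) := by
      rw [act_act]
      congr 1 <;> ring
    rw [e]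
    exact (ih.act (by norm_num)).trans hT'

private theorem lo {R : Type} [AddCommGroup R] {χ : ℤ → ℤ → R}
    (hL : EqC (act 1 0 5 1 χ) χ) (k : ℤ) : EqC (act 1 0 (5 * k) 1 χ) χ := by
  have hL' : EqC (act 1 0 (-5) 1 χ) χ := by
    have := inv_inv (by norm_num) hL
    simpa using this
  induction k using Int.induction_on with
  | zero =>
    rw [mul_zero, act_one]; exact EqC.refl _
  | succ i ih =>
    have e : act 1 0 (5 * ((i : ℤ) + 1)) 1 χ = act 1 0 5 1 (act 1 0 (5 * (i : ℤ)) 1 χ) := by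
      rw [act_act]
      congr 1 <;> ring
    rw [e]
    exact (ih.act (by norm_num)).trans hL
  | pred i ih =>
    have e : act 1 0 (5 * (-(i : ℤ) - 1)) 1 χ = act 1 0 (-5) 1 (act 1 0 (5 * -(i : ℤ)) 1 χ) := by
      rw [act_act]
      congr 1 <;> ring
    rw [e]
    exact (ih.act (by norm_num)).trans hL'

private theorem near (x y : ℤ) (hy : y ≠ 0) : ∃ k : ℤ, 2 * (x + k * y).natAbs ≤ y.natAbs := by
  have h1 := Int.emod_add_mul_ediv x y
  have h2 := Int.emod_nonneg x hy
  have h3 := Int.emod_lt_abs x hy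
  rw [Int.abs_eq_natAbs] at h3
  set q := x / y with hq
  set r := x % y with hr
  by_cases h4 : 2 * r ≤ (y.natAbs : ℤ)
  · refine ⟨-q, ?_⟩
    have e : x + -q * y = r := by linarith
    rw [e]
    omega
  · rcases lt_or_gt_of_ne hy with hneg | hpos
    · refine ⟨-q + 1, ?_⟩
      have e : x + (-q + 1) * y = r + y := by linarith
      rw [e]
      omega
    · refine ⟨-q - 1, ?_⟩
      have e : x + (-q - 1) * y = r - y := by linarith
      rw [e]
      omega

/-- The height `y²` (`y` not divisible by `5`), `y²/5` (`y` divisible by `5`). -/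
private def hz (y : ℤ) : ℤ := if (5 : ℤ) ∣ y then 5 * (y / 5) ^ 2 else y ^ 2

private theorem hz_mul (y : ℤ) : hz (5 * y) = 5 * y ^ 2 := by
  unfold hz
  rw [if_pos (dvd_mul_right _ _), Int.mul_ediv_cancel_left _ (by norm_num)]

private theorem hz_not {y : ℤ} (h : ¬ (5 : ℤ) ∣ y) : hz y = y ^ 2 := by
  unfold hz
  rw [if_neg h]

private theorem hz_nonneg (y : ℤ) : 0 ≤ hz y := by
  unfold hz
  split_ifs
  · positivity
  · positivity

private theorem hz_le (y : ℤ) : hz y ≤ y ^ 2 := by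
  by_cases h : (5 : ℤ) ∣ y
  · obtain ⟨z, rfl⟩ := h
    rw [hz_mul]
    nlinarith [sq_nonneg z]
  · rw [hz_not h]

/-- The Euclidean algorithm for `(1 1; 0 1)`, `W = (0 -1; 5 0)` and `E = (2 -1; 5 -2)`. -/
private theorem euclid {R : Type} {G : ℤ → ℤ → R} (hG : Homog G)
    (hT : ∀ x y : ℤ, (x ≠ 0 ∨ y ≠ 0) → G (x + y) y = G x y)
    (hW : ∀ x y : ℤ, (x ≠ 0 ∨ y ≠ 0) → G (-y) (5 * x) = G x y)
    (hE : ∀ x y : ℤ, (x ≠ 0 ∨ y ≠ 0) → G (2 * x - y) (5 * x - 2 * y) = G x y) :
    ∀ (n : ℕ) (x y : ℤ), hz y < n → (x ≠ 0 ∨ y ≠ 0) → G x y = G 1 0 := by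
  have hTk : ∀ (k x y : ℤ), y ≠ 0 → G (x + k * y) y = G x y := by
    intro k
    induction k using Int.induction_on with
    | zero => intro x y _; simp
    | succ i ih =>
      intro x y hy
      have h := hT (x + i * y) y (Or.inr hy)
      rw [ih x y hy] at h
      rw [← h]
      congr 1
      ring
    | pred i ih =>
      intro x y hy
      have h := hT (x + (-(i : ℤ) - 1) * y) y (Or.inr hy)
      rw [← h, ← ih x y hy]
      congr 1
      ring
  intro n
  induction n with
  | zero =>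
    intro x y hn _
    have := hz_nonneg y
    push_cast at hn
    omega
  | succ n ih =>
    have step : ∀ x y x' y' : ℤ, hz y < ((n + 1 : ℕ) : ℤ) → hz y' < hz y → (x' ≠ 0 ∨ y' ≠ 0) →
        G x y = G x' y' → G x y = G 1 0 := by
      intro x y x' y' h1 h2 h3 h4
      rw [h4]
      refine ih x' y' ?_ h3
      push_cast at h1
      omega
    -- the step with `E`
    have stepE : ∀ x y : ℤ, hz y < ((n + 1 : ℕ) : ℤ) → 0 < y → y < 5 * x → 5 * x < 3 * y →
        G x y = G 1 0 := by
      intro x y h1 hy h2 h3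
      refine step x y (2 * x - y) (5 * x - 2 * y) h1 ?_ ?_ (hE x y (Or.inr hy.ne')).symm
      · by_cases h5 : (5 : ℤ) ∣ y
        · obtain ⟨z, rfl⟩ := h5
          have e : 5 * x - 2 * (5 * z) = 5 * (x - 2 * z) := by ring
          rw [e, hz_mul, hz_mul]
          have a1 : z < x := by omega
          have a2 : x < 3 * z := by omega
          nlinarith
        · have h6 : ¬ (5 : ℤ) ∣ 5 * x - 2 * y := by omega
          rw [hz_not h5, hz_not h6]
          nlinarith
      · by_contra hcon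
        push Not at hcon
        omega
    -- vectors with `y > 0`, `2 |x| ≤ y`, not both divisible by `5`
    have red : ∀ x y : ℤ, hz y < ((n + 1 : ℕ) : ℤ) → 0 < y → -y ≤ 2 * x → 2 * x ≤ y →
        ¬ ((5 : ℤ) ∣ x ∧ (5 : ℤ) ∣ y) → G x y = G 1 0 := by
      intro x y h1 hy h2 h3 h5
      by_cases h4 : 5 * x ^ 2 < y ^ 2
      · by_cases h6 : (5 : ℤ) ∣ y
        · obtain ⟨z, rfl⟩ := h6
          have hx : ¬ (5 : ℤ) ∣ x := fun h => h5 ⟨h, dvd_mul_right _ _⟩
          have hx0 : x ≠ 0 := by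
            rintro rfl
            exact hx (dvd_zero _)
          refine step x (5 * z) (-z) x h1 ?_ (Or.inr hx0) ?_
          · rw [hz_mul, hz_not hx]
            nlinarith
          · rw [← hW x (5 * z) (Or.inl hx0)]
            have := hG 5 (-z) x (by norm_num) (Or.inr hx0)
            rw [← this]
            congr 1
            ring
        · refine step x y (-y) (5 * x) h1 ?_ (Or.inl (by omega)) (hW x y (Or.inr hy.ne')).symm
          rw [hz_mul, hz_not h6]
          exact h4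
      · rw [not_lt] at h4
        rcases lt_or_ge 0 x with hx | hx
        · refine stepE x y h1 hy ?_ ?_
          · nlinarith
          · omega
        · have e := hTk 1 x y hy.ne'
          rw [← e]
          refine stepE (x + 1 * y) y h1 hy ?_ ?_
          · omega
          · nlinarith
    intro x y hn hxy
    by_cases hy : y = 0
    · subst hy
      have hx : x ≠ 0 := by
        rcases hxy with h | h
        · exact h
        · exact absurd rfl h
      have h := hG x 1 0 hx (Or.inl one_ne_zero)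
      simpa using h
    · by_cases h5 : (5 : ℤ) ∣ x ∧ (5 : ℤ) ∣ y
      · obtain ⟨⟨x', rfl⟩, ⟨y', rfl⟩⟩ := h5
        have hy' : y' ≠ 0 := fun h => hy (by rw [h, mul_zero])
        refine step (5 * x') (5 * y') x' y' hn ?_ (Or.inr hy')
          (hG 5 x' y' (by norm_num) (Or.inr hy'))
        rw [hz_mul]
        have := hz_le y'
        have h7 : 0 < y' ^ 2 := by positivity
        linarith
      · obtain ⟨k, hk⟩ := near x y hy
        rw [← hTk k x y hy]
        have h6 : ¬ ((5 : ℤ) ∣ x + k * y ∧ (5 : ℤ) ∣ y) := by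
          rintro ⟨a1, a2⟩
          exact h5 ⟨(Int.dvd_add_left (Dvd.dvd.mul_left a2 k)).1 a1, a2⟩
        generalize x + k * y = u at hk h6
        rcases lt_or_gt_of_ne hy with hneg | hpos
        · have e : G (-u) (-y) = G u y := by
            have := hG (-1) u y (by norm_num) (Or.inr hy)
            rwa [neg_one_mul, neg_one_mul] at this
          rw [← e]
          have hz' : hz (-y) = hz y := by
            by_cases h : (5 : ℤ) ∣ y
            · obtain ⟨z, rfl⟩ := h
              have e : -(5 * z) = 5 * (-z) := by ring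
              rw [e, hz_mul, hz_mul]
              ring
            · rw [hz_not h, hz_not (fun h' => h (Int.dvd_neg.1 h'))]
              ring
          refine red (-u) (-y) (by rw [hz']; exact hn) (by omega) (by omega) (by omega) ?_
          rintro ⟨a1, a2⟩
          exact h6 ⟨Int.dvd_neg.1 a1, Int.dvd_neg.1 a2⟩
        · exact red u y hn hpos (by omega) (by omega) h6

theorem hUIp : SHUIp := by
  intro p hp hp2 R _ r s χ hχ hu
  have hp0 : (p : ℤ) ≠ 0 := by
    have : p ≠ 0 := by omega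
    exact_mod_cast this
  have hsq : ∀ k : ℕ, ∃ j : ℤ, 1 - ((p : ℤ) ^ k) ^ 4 = 5 * j := by
    intro k
    have h1 : ¬ (5 : ℤ) ∣ (p : ℤ) ^ k := by
      intro h
      have h5 : Prime (5 : ℤ) := by norm_num
      have h2 : (5 : ℤ) ∣ (p : ℤ) := h5.dvd_of_dvd_pow h
      exact hp2 (by exact_mod_cast h2)
    generalize (p : ℤ) ^ k = a at h1
    have h2 : a % 5 = 1 ∨ a % 5 = 2 ∨ a % 5 = 3 ∨ a % 5 = 4 := by omega
    have h3 : (5 : ℤ) ∣ 1 - a ^ 4 := by
      apply Int.dvd_of_emod_eq_zero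
      rcases h2 with h | h | h | h <;> simp [Int.sub_emod, pow_succ, Int.mul_emod, h]
    exact h3
  have detu : (p : ℤ) * 1 - 0 * 0 ≠ 0 := by simpa using hp0
  have st1 : ∀ b : ℤ, EqC (act 1 (p * b) 0 1 χ) χ → EqC (act 1 b 0 1 χ) χ := by
    intro b hb
    have e1 : act 1 b 0 1 (act p 0 0 1 χ) = act p 0 0 1 (act 1 (p * b) 0 1 χ) := by
      rw [act_act, act_act]
      congr 1 <;> ring
    have h1 : EqC (act 1 b 0 1 χ) (act 1 b 0 1 (act p 0 0 1 χ)) := hu.symm.act (by norm_num)
    rw [e1] at h1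
    exact h1.trans ((hb.act detu).trans hu)
  have st2 : ∀ c : ℤ, EqC (act 1 0 (p * c) 1 χ) χ → EqC (act 1 0 c 1 χ) χ := by
    intro c hc
    have e1 : act 1 0 (p * c) 1 (act p 0 0 1 χ) = act p 0 0 1 (act 1 0 c 1 χ) := by
      rw [act_act, act_act]
      congr 1 <;> ring
    have h1 : EqC (act p 0 0 1 (act 1 0 c 1 χ)) (act p 0 0 1 χ) := by
      rw [← e1]
      exact (hu.act (by norm_num)).trans (hc.trans hu.symm)
    obtain ⟨k, hk⟩ := h1
    have hF : Homog (act 1 0 c 1 χ) := hχ.1.act (by norm_num)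
    refine ⟨k, fun x y hxy => ?_⟩
    have hxy' : x ≠ 0 ∨ (p : ℤ) * y ≠ 0 := by
      rcases hxy with hx | hy
      · exact Or.inl hx
      · exact Or.inr (mul_ne_zero hp0 hy)
    have h2 := hk x (p * y) hxy'
    have e2 : act p 0 0 1 (act 1 0 c 1 χ) x (p * y) = act 1 0 c 1 χ x y := by
      rw [← hF p x y hp0 hxy]
      show act 1 0 c 1 χ (p * x + 0 * (p * y)) (0 * x + 1 * (p * y)) = _
      congr 1 <;> ring
    have e3 : act p 0 0 1 χ x (p * y) = χ x y := by
      rw [← hχ.1 p x y hp0 hxy]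
      show χ (p * x + 0 * (p * y)) (0 * x + 1 * (p * y)) = _
      congr 1 <;> ring
    rw [e2, e3] at h2
    exact h2
  have hT : EqC (act 1 1 0 1 χ) χ := by
    have key : ∀ k : ℕ, EqC (act 1 ((p : ℤ) ^ k) 0 1 χ) χ → EqC (act 1 1 0 1 χ) χ := by
      intro k
      induction k with
      | zero => intro h; simpa using h
      | succ k ih =>
        intro h
        rw [pow_succ'] at h
        exact ih (st1 _ h)
    exact key r (hχ.2 1 ((p : ℤ) ^ r) 0 1 (Or.inl ⟨by ring, dvd_zero _⟩) (dvd_refl _)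
      (dvd_zero _))
  have hL : EqC (act 1 0 5 1 χ) χ := by
    have key : ∀ k : ℕ, EqC (act 1 0 ((p : ℤ) ^ k * 5) 1 χ) χ → EqC (act 1 0 5 1 χ) χ := by
      intro k
      induction k with
      | zero => intro h; simpa using h
      | succ k ih =>
        intro h
        rw [pow_succ', mul_assoc] at h
        exact ih (st2 _ h)
    exact key s (hχ.2 1 0 ((p : ℤ) ^ s * 5) 1 (Or.inl ⟨by ring, Dvd.intro_left _ rfl⟩)
      (dvd_zero _) (Dvd.intro _ rfl))
  -- the matrix `W`
  have hW : EqC (act 0 (-1) 5 0 χ) χ := by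
    obtain ⟨k, hk⟩ := hsq r
    obtain ⟨j, hj⟩ := hsq s
    set P : ℤ := (p : ℤ) ^ r with hP
    set Q : ℤ := (p : ℤ) ^ s with hQ
    have h0 : EqC (act (1 - P ^ 4 * Q ^ 4) (-P ^ 4) (5 * Q ^ 4) 5 χ) χ := by
      apply hχ.2
      · refine Or.inr ⟨by ring, ?_, Dvd.intro _ rfl, dvd_refl _⟩
        have e : 1 - P ^ 4 * Q ^ 4 = 5 * (k + P ^ 4 * j) := by
          linear_combination hk + P ^ 4 * hj
        rw [e]
        exact Dvd.intro _ rfl
      · exact ⟨-P ^ 3, by ring⟩
      · exact ⟨5 * Q ^ 3, by ring⟩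
    have e : act 0 (-1) 5 0 χ = act 1 (-1) 0 1 (act 1 0 (5 * j) 1
        (act (1 - P ^ 4 * Q ^ 4) (-P ^ 4) (5 * Q ^ 4) 5
          (act 1 (-k) 0 1 χ))) := by
      rw [act_act, act_act, act_act]
      congr 1
      · rw [← hj]; linear_combination (-1 : ℤ) * hk
      · rw [← hj]; ring
      · rw [← hj]; ring
      · rw [← hj]; ring
    rw [e]
    have d0 : (1 - P ^ 4 * Q ^ 4) * 5 - -P ^ 4 * (5 * Q ^ 4) ≠ 0 := by
      have : (1 - P ^ 4 * Q ^ 4) * 5 - -P ^ 4 * (5 * Q ^ 4) = 5 := by ring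
      rw [this]
      norm_num
    have h1 := ((up hT (-k)).act d0).trans h0
    have h2 := (h1.act (a := 1) (b := 0) (c := 5 * j) (d := 1) (by norm_num)).trans (lo hL j)
    exact (h2.act (a := 1) (b := -1) (c := 0) (d := 1) (by norm_num)).trans (up hT (-1))
  -- the matrix `E`
  have hE : EqC (act 2 (-1) 5 (-2) χ) χ := by
    obtain ⟨h, hh⟩ := hsq (r + s)
    obtain ⟨S, hS⟩ : ∃ S : ℤ, ((p : ℤ) ^ (r + s)) ^ 4 = S := ⟨_, rfl⟩
    rw [hS] at hh
    have hr : (p : ℤ) ^ r ∣ S := by
      rw [← hS]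
      exact Dvd.dvd.pow (pow_dvd_pow _ (by omega)) (by norm_num)
    have hs : (p : ℤ) ^ s ∣ S := by
      rw [← hS]
      exact Dvd.dvd.pow (pow_dvd_pow _ (by omega)) (by norm_num)
    have dt : (1 - 2 * S + 8 * S ^ 2) * (1 + 2 * S) - (-((1 - 4 * h) * (2 * S))) * (-(10 * S)) = 1 := by
      linear_combination (-16 : ℤ) * S ^ 2 * hh
    have h0 : EqC (act (1 - 2 * S + 8 * S ^ 2) (-((1 - 4 * h) * (2 * S))) (-(10 * S)) (1 + 2 * S) χ) χ := by
      apply hχ.2
      · refine Or.inl ⟨dt, ?_⟩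
        exact ⟨-(2 * S), by ring⟩
      · exact (Dvd.dvd.mul_left (Dvd.dvd.mul_left hr _) _).neg_right
      · exact (Dvd.dvd.mul_left hs _).neg_right
    have e : act 2 (-1) 5 (-2) χ = act 1 (-(1 - 2 * h)) 0 1 (act 1 0 (5 * 1) 1
        (act (1 - 2 * S + 8 * S ^ 2) (-((1 - 4 * h) * (2 * S))) (-(10 * S)) (1 + 2 * S)
          (act 1 (1 - 4 * h) 0 1 χ))) := by
      have hS' : S = 1 - 5 * h := by linarith
      rw [act_act, act_act, act_act, hS']
      congr 1 <;> ring
    rw [e]
    have d0 : (1 - 2 * S + 8 * S ^ 2) * (1 + 2 * S) - (-((1 - 4 * h) * (2 * S))) * (-(10 * S)) ≠ 0 := by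
      rw [dt]
      norm_num
    have h1 := ((up hT (1 - 4 * h)).act d0).trans h0
    have h2 := (h1.act (a := 1) (b := 0) (c := 5 * 1) (d := 1) (by norm_num)).trans (lo hL 1)
    exact (h2.act (a := 1) (b := -(1 - 2 * h)) (c := 0) (d := 1) (by norm_num)).trans
      (up hT (-(1 - 2 * h)))
  -- constants
  obtain ⟨ct, hct⟩ := hT
  have hct0 : ct = 0 := by
    have h := hct 1 0 (Or.inl one_ne_zero)
    simpa [act] using h
  obtain ⟨w, hw⟩ := hW
  have h2w : w + w = 0 := by
    have h1 := hw 1 0 (Or.inl one_ne_zero)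
    have h2 := hw 0 5 (Or.inr (by norm_num))
    have h3 := hχ.1 (-5) 1 0 (by norm_num) (Or.inl one_ne_zero)
    simp only [act] at h1 h2
    norm_num at h1 h2 h3
    rw [h3, h1, add_assoc] at h2
    exact (left_eq_add.1 h2)
  obtain ⟨e, he⟩ := hE
  have h2e : e + e = 0 := by
    have h1 := he 1 0 (Or.inl one_ne_zero)
    have h2 := he 2 5 (Or.inr (by norm_num))
    have h3 := hχ.1 (-1) 1 0 (by norm_num) (Or.inl one_ne_zero)
    simp only [act] at h1 h2
    norm_num at h1 h2 h3
    rw [h3, h1, add_assoc] at h2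
    exact (left_eq_add.1 h2)
  refine ⟨(6 : ℤ) • χ 1 0, fun x y hxy => ?_⟩
  have key := euclid (G := (2 : ℤ) • χ) (hχ.1.smul (2 : ℤ)) ?_ ?_ ?_ (hz y + 1).toNat x y
    (by have := hz_nonneg y; omega) hxy
  · have e6 : ∀ v : R, (6 : ℤ) • v = (3 : ℤ) • ((2 : ℤ) • v) := by
      intro v
      rw [smul_smul]
      norm_num
    have key' : (2 : ℤ) • χ x y = (2 : ℤ) • χ 1 0 := key
    show (6 : ℤ) • χ x y = 0 + (6 : ℤ) • χ 1 0
    rw [e6 (χ x y), key', ← e6, zero_add]
  · intro x y hxy
    have h := hct x y hxy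
    rw [hct0, add_zero] at h
    simp only [act, one_mul, zero_mul, zero_add] at h
    show (2 : ℤ) • χ (x + y) y = (2 : ℤ) • χ x y
    rw [h]
  · intro x y hxy
    have h := hw x y hxy
    simp only [act, zero_mul, zero_add, add_zero, neg_mul, one_mul] at h
    show (2 : ℤ) • χ (-y) (5 * x) = (2 : ℤ) • χ x y
    rw [h, smul_add, two_smul ℤ w, h2w, add_zero]
  · intro x y hxy
    have h := he x y hxy
    simp only [act, neg_mul, one_mul] at h
    show (2 : ℤ) • χ (2 * x - y) (5 * x - 2 * y) = (2 : ℤ) • χ x y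
    rw [sub_eq_add_neg, sub_eq_add_neg (5 * x), h, smul_add, two_smul ℤ e, h2e, add_zero]

end Pool.Agent.Helper73.T5W
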